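import Pool.Agent.helper77.PV.SpecK

/-!
# Row pvk:KC0
-/

set_option autoImplicit false
set_option linter.unusedVariables false

open scoped Matrix Topology
open Filter

namespace Pool.Agent.PV

open Pool.Agent.CZ Pool.Agent.PVH

theorem KC0_cls {A : Type} [Ring A] (p : IdemMat A) : cls p = k0 p.e p.idem := by
  unfold k0 cls
  rw [QuotientAddGroup.eq]
  have h : (FreeAbelianGroup.of p - FreeAbelianGroup.of ⟨Fintype.card (Fin p.n),
      p.e.submatrix (Fintype.equivFin (Fin p.n)).symm (Fintype.equivFin (Fin p.n)).symm, by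
        rw [Matrix.submatrix_mul_equiv, p.idem]⟩ : FreeAbelianGroup (IdemMat A)) ∈
      AddSubgroup.closure (K0Rel A) := by
    refine AddSubgroup.subset_closure (Or.inl ⟨p, _, ⟨p.e.submatrix id (Fintype.equivFin (Fin p.n)).symm,
      p.e.submatrix (Fintype.equivFin (Fin p.n)).symm id, ?_, ?_⟩, rfl⟩)
    · rw [Matrix.submatrix_mul_equiv, p.idem]
      rfl
    · have h3 := Matrix.submatrix_mul_equiv p.e p.e (Fintype.equivFin (Fin p.n)).symm
        (Equiv.refl (Fin p.n)) (Fintype.equivFin (Fin p.n)).symm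
      rw [p.idem] at h3
      exact h3
  have h2 := AddSubgroup.neg_mem _ h
  rw [neg_sub, sub_eq_neg_add] at h2
  exact h2

theorem KC0_ext {A : Type} [Ring A] {G : Type*} [AddCommGroup G] (f g : K0 A →+ G)
    (h : ∀ p : IdemMat A, f (cls p) = g (cls p)) (z : K0 A) : f z = g z := by
  have hfg : f = g := by
    apply QuotientAddGroup.addMonoidHom_ext
    apply FreeAbelianGroup.lift_ext
    intro p
    exact h p
  rw [hfg]

theorem KC0 (hRNK : RNK_stmt) (hKT0 : KT0_stmt) (hKT1 : KT1_stmt) (hPVS : PVS_stmt) (hDZP : DZP_stmt)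
    (hFUN : FUN_stmt) (hK0G : K0G_stmt) : KC0_stmt := by
  intro H _ P g Ω _ _ _ _ s Q hQ A _ ι u c hcov
  obtain ⟨R, hR⟩ := hRNK Ω
  have hbij := hKT0 Ω R hR
  have hZ := hDZP Ω s A ι u c hcov
  have hi : Continuous ι.toAlgHom.toRingHom := by
    have h : Isometry ι.toAlgHom := AddMonoidHomClass.isometry_of_norm _ hZ.isoA
    exact h.continuous
  have ha : Continuous (alC s : C(Ω, ℂ) →ₐ[ℂ] C(Ω, ℂ)).toRingHom := by
    have h : Isometry (alC s) := AddMonoidHomClass.isometry_of_norm _ hZ.isoB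
    exact h.continuous
  obtain ⟨d1, d0, -, -, p1, p2, -, -, -, -, -⟩ :=
    hPVS C(Ω, ℂ) A (alC s) ι.toAlgHom (Unitary.toUnits u) c hi ha hZ
  -- `R` is the trace
  have hRtr : ∀ z x, ((R z x : ℤ) : ℂ) = trC C(Ω, ℂ) z x := by
    intro z x
    let f1 : K0 C(Ω, ℂ) →+ ℂ :=
      { toFun := fun z => ((R z x : ℤ) : ℂ)
        map_zero' := by simp
        map_add' := fun a b => by simp }
    let f2 : K0 C(Ω, ℂ) →+ ℂ :=
      { toFun := fun z => trC C(Ω, ℂ) z x
        map_zero' := by simp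
        map_add' := fun a b => by simp }
    have h : ∀ p : IdemMat C(Ω, ℂ), f1 (cls p) = f2 (cls p) := by
      intro p
      change ((R (cls p) x : ℤ) : ℂ) = trC C(Ω, ℂ) (cls p) x
      rw [trC_cls, KC0_cls, hR, ContinuousMap.sum_apply]
    exact KC0_ext f1 f2 h z
  -- equivariance
  have hRal : ∀ z x, R (k0a (alC s) z) x = R z (s.symm x) := by
    intro z x
    have h0 : trC C(Ω, ℂ) (k0a (alC s) z) x = trC C(Ω, ℂ) z (s.symm x) := by
      let f1 : K0 C(Ω, ℂ) →+ ℂ :=
        { toFun := fun z => trC C(Ω, ℂ) (k0a (alC s) z) x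
          map_zero' := by simp
          map_add' := fun a b => by simp }
      let f2 : K0 C(Ω, ℂ) →+ ℂ :=
        { toFun := fun z => trC C(Ω, ℂ) z (s.symm x)
          map_zero' := by simp
          map_add' := fun a b => by simp }
      have h : ∀ p : IdemMat C(Ω, ℂ), f1 (cls p) = f2 (cls p) := by
        intro p
        change trC C(Ω, ℂ) (cls (imap (alC s : C(Ω, ℂ) →ₐ[ℂ] C(Ω, ℂ)).toRingHom p)) x =
          trC C(Ω, ℂ) (cls p) (s.symm x)
        rw [trC_cls, trC_cls, ContinuousMap.sum_apply, ContinuousMap.sum_apply]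
        rfl
      exact KC0_ext f1 f2 h z
    rw [← hRtr, ← hRtr] at h0
    exact_mod_cast h0
  -- the kernel
  have hker : ∀ z : K0 C(Ω, ℂ), k0map ι.toAlgHom.toRingHom z = 0 ↔ Q (R z) = 0 := by
    intro z
    rw [p1, hQ.cob]
    constructor
    · rintro ⟨w, rfl⟩
      refine ⟨(R w).comp (s.symm : C(Ω, Ω)), fun x => ?_⟩
      have h1 : R (w - k0a (alC s) w) x = R w x - R w (s.symm x) := by
        rw [map_sub, ContinuousMap.sub_apply, hRal]
      rw [h1]
      have h2 : ((R w).comp (s.symm : C(Ω, Ω))) (s x) = R w x := by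
        change R w (s.symm (s x)) = R w x
        rw [s.symm_apply_apply]
      rw [h2]
      rfl
    · rintro ⟨e, he⟩
      obtain ⟨w, hw⟩ := hbij.2 (e.comp (s : C(Ω, Ω)))
      refine ⟨w, hbij.1 ?_⟩
      ext x
      rw [map_sub, ContinuousMap.sub_apply, hRal, hw, he]
      change _ = e (s x) - e (s (s.symm x))
      rw [s.apply_symm_apply]
  have honto : ∀ z : K0 A, ∃ w, z = k0map ι.toAlgHom.toRingHom w := by
    intro z
    rw [← p2]
    exact hKT1 Ω _
  have hs1 : Function.Surjective (k0map ι.toAlgHom.toRingHom : K0 C(Ω, ℂ) →+ K0 A) := by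
    intro z
    obtain ⟨w, hw⟩ := honto z
    exact ⟨w, hw.symm⟩
  have hs2 : Function.Surjective (Q.comp R) := hQ.surj.comp hbij.2
  have hkk : (k0map ι.toAlgHom.toRingHom : K0 C(Ω, ℂ) →+ K0 A).ker = (Q.comp R).ker := by
    ext z
    rw [AddMonoidHom.mem_ker, AddMonoidHom.mem_ker, hker]
    rfl
  let ψ : K0 A ≃+ H := (QuotientAddGroup.quotientKerEquivOfSurjective _ hs1).symm.trans
    ((QuotientAddGroup.quotientAddEquivOfEq hkk).trans
      (QuotientAddGroup.quotientKerEquivOfSurjective _ hs2))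
  have hψ : ∀ z, ψ (k0map ι.toAlgHom.toRingHom z) = Q (R z) := by
    intro z
    have h1 : (QuotientAddGroup.quotientKerEquivOfSurjective _ hs1).symm
        (k0map ι.toAlgHom.toRingHom z) = QuotientAddGroup.mk z := by
      rw [AddEquiv.symm_apply_eq]
      rfl
    change (QuotientAddGroup.quotientKerEquivOfSurjective _ hs2)
      ((QuotientAddGroup.quotientAddEquivOfEq hkk)
        ((QuotientAddGroup.quotientKerEquivOfSurjective _ hs1).symm
          (k0map ι.toAlgHom.toRingHom z))) = Q (R z)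
    rw [h1]
    rfl
  refine ⟨ψ, R, hRtr, hψ, honto, ?_⟩
  rw [← hFUN.2.2.1 C(Ω, ℂ) A ι.toAlgHom.toRingHom, hψ]
  have h1 : R (unitCls C(Ω, ℂ)) = 1 := by
    ext x
    have h2 := hRtr (unitCls C(Ω, ℂ)) x
    have h3 : trC C(Ω, ℂ) (unitCls C(Ω, ℂ)) x = 1 := by
      unfold unitCls
      rw [trC_cls]
      simp
    rw [h3] at h2
    exact_mod_cast h2
  rw [h1]
  exact hQ.one

end Pool.Agent.PV
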