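import Pool.Agent.helper77.PV.SpecA

/-!
# Row pv:MS0 (multi-split algebras, K₀)
-/

set_option autoImplicit false

open scoped Matrix

namespace Pool.Agent.PV

open Pool.Agent.CZ

/-- functoriality for algebra homomorphisms -/
theorem MS0_comp (hFUN : FUN_stmt) {A B C : Type} [Ring A] [Algebra ℂ A] [Ring B] [Algebra ℂ B]
    [Ring C] [Algebra ℂ C] (φ : A →ₐ[ℂ] B) (ψ : B →ₐ[ℂ] C) (χ : A →ₐ[ℂ] C)
    (h : ∀ a, ψ (φ a) = χ a) (z : K0 A) :
    k0map ψ.toRingHom (k0map φ.toRingHom z) = k0map χ.toRingHom z := by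
  have h1 : χ.toRingHom = ψ.toRingHom.comp φ.toRingHom := by
    ext a
    exact (h a).symm
  rw [h1, hFUN.2.1]

/-- ROW pv:MS0 -/
theorem MS0 (hMSF : MSF_stmt) (hMF0 : MF0_stmt) (hCS0 : CS0_stmt) (hCI0 : CI0_stmt)
    (hFUN : FUN_stmt) : MS0_stmt := by
  intro I C₀ C D _ _ _ _ _ _ _ _ _ j e r χ hS
  classical
  obtain ⟨hcl, hd, hM, -⟩ := hMSF I C₀ C D j e r hS
  constructor
  · intro z
    obtain ⟨F, w, rfl⟩ := hCS0 C I (mS e) hM hcl hd z
    obtain ⟨jF, rF, hjF, hrF, hsur, -⟩ := hMF0 I C₀ C D j e r χ hS F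
    obtain ⟨x, y, hy, rfl⟩ := hsur w
    let Y : I →₀ K0 D := Finsupp.onFinset F (fun k => if h : k ∈ F then y ⟨k, h⟩ else 0)
      (fun k hk => by
        by_contra hc
        exact hk (dif_neg hc))
    have hYin : ∀ k : F, Y k = y k := fun k => dif_pos k.2
    refine ⟨x, Y, ?_, ?_⟩
    · intro k
      by_cases hk : k ∈ F
      · rw [show Y k = y ⟨k, hk⟩ from hYin ⟨k, hk⟩]
        exact hy _
      · rw [show Y k = 0 from dif_neg hk, map_zero]
    · have hsum : (Y.sum fun k v => k0map (r k).toRingHom v)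
          = ∑ k ∈ F, k0map (r k).toRingHom (Y k) := by
        refine Finsupp.sum_of_support_subset _ ?_ _ ?_
        · exact Finsupp.support_onFinset_subset
        · intro k _
          exact map_zero _
      rw [hsum, map_add, map_sum, MS0_comp hFUN jF (mS e F).val j (fun a => hjF a),
        ← Finset.sum_coe_sort F]
      congr 1
      refine Finset.sum_congr rfl fun k _ => ?_
      rw [MS0_comp hFUN (rF k) (mS e F).val (r k) (fun a => hrF k a), hYin k]
  · intro x y hy h0
    obtain ⟨jF, rF, hjF, hrF, -, -⟩ := hMF0 I C₀ C D j e r χ hS y.support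
    have hw : k0map (mS e y.support).val.toRingHom
        (k0map jF.toRingHom x + ∑ k : y.support, k0map (rF k).toRingHom (y k)) = 0 := by
      rw [← h0, map_add, map_sum, MS0_comp hFUN jF (mS e y.support).val j (fun a => hjF a)]
      congr 1
      rw [Finsupp.sum, ← Finset.sum_coe_sort y.support]
      refine Finset.sum_congr rfl fun k _ => ?_
      rw [MS0_comp hFUN (rF k) (mS e y.support).val (r k) (fun a => hrF k a)]
    obtain ⟨F', hF', hw'⟩ := hCI0 C I (mS e) hM hcl hd y.support _ hw
    obtain ⟨jG, rG, hjG, hrG, -, hinj⟩ := hMF0 I C₀ C D j e r χ hS F'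
    have hin := hinj x (fun k => y k) (fun k => hy k) (by
      rw [← hw', map_add, map_sum,
        MS0_comp hFUN jF (Subalgebra.inclusion (hM hF')) jG (fun a => by
          apply Subtype.ext
          rw [hjG a]
          exact hjF a)]
      congr 1
      rw [Finset.sum_coe_sort_eq_attach, Finset.sum_coe_sort_eq_attach]
      have e1 : ∀ k : y.support, k0map (Subalgebra.inclusion (hM hF')).toRingHom
          (k0map (rF k).toRingHom (y k)) = k0map (rG ⟨k, hF' k.2⟩).toRingHom (y k) := fun k =>
        MS0_comp hFUN (rF k) (Subalgebra.inclusion (hM hF')) (rG ⟨k, hF' k.2⟩) (fun a => by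
          apply Subtype.ext
          rw [hrG ⟨k, hF' k.2⟩ a]
          exact hrF k a) (y k)
      rw [Finset.sum_congr rfl fun k _ => e1 k]
      symm
      refine Finset.sum_bij_ne_zero (fun k _ _ => (⟨k, hF' k.2⟩ : F')) ?_ ?_ ?_ ?_
      · intro k _ _
        exact Finset.mem_attach _ _
      · intro a _ _ b _ _ hab
        apply Subtype.ext
        exact congrArg (fun t : F' => (t : I)) hab
      · intro b _ hb
        have hb' : (b : I) ∈ y.support := by
          by_contra hc
          apply hb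
          rw [Finsupp.notMem_support_iff.mp hc, map_zero]
        exact ⟨⟨b, hb'⟩, Finset.mem_attach _ _, hb, rfl⟩
      · intro a _ _
        rfl)
    refine ⟨hin.1, ?_⟩
    ext k
    by_cases hk : k ∈ y.support
    · exact congrFun hin.2 ⟨k, hF' hk⟩
    · exact Finsupp.notMem_support_iff.mp hk

end Pool.Agent.PV
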